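import Mathlib

/-!
# Boundary rigidity of simple manifolds: data and known facts
-/

namespace Pool.Agent.N522.BR

/-- Simple Riemannian manifolds. -/
structure Theory where
  /-- pairs `(M, g)` of a compact manifold with boundary and a simple metric -/
  Man : Type
  /-- dimension -/
  dim : Man → ℕ
  /-- `Same x x'`: two simple metrics on the same manifold with equal boundary distance functions -/
  Same : Man → Man → Prop
  /-- `Isom x x'`: there is an isometry that is the identity on the boundary -/
  Isom : Man → Man → Prop
  /-- `Sub x y`: `x` is a domain with smooth boundary in the interior of `y` with the restricted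
  metric -/
  Sub : Man → Man → Prop
  /-- there is a real analytic structure, with analytic boundary, for which the metric is real
  analytic in a neighbourhood of the boundary -/
  Ana : Man → Prop

variable {T : Theory}

/-- boundary rigid -/
def Rigid (x : T.Man) : Prop := ∀ x', T.Same x x' → T.Isom x x'

/-- Known facts. -/
structure Facts (T : Theory) : Prop where
  /-- same manifold -/
  same_dim : ∀ x y, T.Sub x y → T.dim x = T.dim y
  /-- Let `g'` on the smaller manifold have the boundary distance function of `g`. After a
  diffeomorphism that fixes the boundary the jets of `g` and `g'` agree on the boundary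
  (Lassas-Sharafutdinov-Uhlmann), and `g'` can be glued to the metric outside. The glued metric has the
  same lens data; it has no conjugate points, because the index of the geodesics between boundary
  points does not change, and it is simple with the same boundary distance function. An isometry that
  is the identity on the outer boundary is the identity outside the smaller manifold. -/
  glue : ∀ x y x', T.Sub x y → T.Same x x' → ∃ y', T.Same y y' ∧ (T.Isom y y' → T.Isom x x')
  /-- Simplicity is an open condition, so the metric extends to a slightly larger simple manifold, and
  the extension can be taken real analytic near the new boundary. -/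
  extend : ∀ x, ∃ y, T.Sub x y ∧ T.Ana y

theorem rigid_of_sub (F : Facts T) (x y : T.Man) (h : T.Sub x y) (hy : Rigid y) : Rigid x := by
  intro x' hx
  obtain ⟨y', h1, h2⟩ := F.glue x y x' h hx
  exact h2 (hy y' h1)

theorem rigid_iff (F : Facts T) (n : ℕ) : (∀ x : T.Man, T.dim x = n → Rigid x) ↔
    ∀ x : T.Man, T.dim x = n → T.Ana x → Rigid x := by
  refine ⟨fun h x hx _ => h x hx, fun h x hx => ?_⟩
  obtain ⟨y, h1, h2⟩ := F.extend x
  exact rigid_of_sub F x y h1 (h y ((F.same_dim x y h1).symm.trans hx) h2)

end Pool.Agent.N522.BR
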